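import Pool.Agent.P8H47.FP.Stm

/-! # Project FP: packages KUM, LOCN, TWIST -/

set_option autoImplicit false

namespace Pool.Agent.P8H63.FP

open Pool.Agent.P8H47.FP

section gen

variable {G P : Type} [Group G] [TopologicalSpace G] [Group P] {U : Subgroup G} {ψ : G → P}

theorem hom_one (h : HomOn U ψ) : ψ 1 = 1 := by
  have h1 := h.mul 1 U.one_mem 1 U.one_mem
  rw [one_mul] at h1
  exact left_eq_mul.mp h1

theorem hom_inv (h : HomOn U ψ) {g : G} (hg : g ∈ U) : ψ g⁻¹ = (ψ g)⁻¹ := by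
  have h1 := h.mul g⁻¹ (U.inv_mem hg) g hg
  rw [inv_mul_cancel, hom_one h] at h1
  exact eq_inv_of_mul_eq_one_left h1.symm

/-- the kernel of a homomorphism on a subgroup -/
def kerOn (U : Subgroup G) (ψ : G → P) (h : HomOn U ψ) : Subgroup G where
  carrier := {g | g ∈ U ∧ ψ g = 1}
  mul_mem' := by
    rintro a b ⟨ha, ha'⟩ ⟨hb, hb'⟩
    exact ⟨U.mul_mem ha hb, by rw [h.mul a ha b hb, ha', hb', one_mul]⟩
  one_mem' := ⟨U.one_mem, hom_one h⟩
  inv_mem' := by
    rintro a ⟨ha, ha'⟩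
    exact ⟨U.inv_mem ha, by rw [hom_inv h ha, ha', inv_one]⟩

theorem mem_kerOn (h : HomOn U ψ) (g : G) : g ∈ kerOn U ψ h ↔ g ∈ U ∧ ψ g = 1 := Iff.rfl

theorem kerOn_closed [IsTopologicalGroup G] (h : HomOn U ψ) (hU : IsClosed (U : Set G)) :
    IsClosed (kerOn U ψ h : Set G) := by
  obtain ⟨V, hV, hV'⟩ := h.cont
  rw [← isOpen_compl_iff, isOpen_iff_mem_nhds]
  intro g hg
  by_cases hgU : g ∈ U
  · have hψ : ψ g ≠ 1 := fun h' => hg ⟨hgU, h'⟩
    have h1 : IsOpen ((fun x => g * x) '' (V : Set G)) :=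
      (Homeomorph.mulLeft g).isOpenMap _ hV
    refine Filter.mem_of_superset (h1.mem_nhds ⟨1, V.one_mem, mul_one g⟩) ?_
    rintro _ ⟨v, hv, rfl⟩ ⟨hgv, hgv'⟩
    have hvU : v ∈ U := by
      have := U.mul_mem (U.inv_mem hgU) hgv
      simpa using this
    apply hψ
    have h2 := h.mul g hgU v hvU
    rw [hV' v hv hvU, mul_one] at h2
    rw [← h2]
    exact hgv'
  · refine Filter.mem_of_superset (hU.isOpen_compl.mem_nhds hgU) ?_
    intro x hx hx'
    exact hx hx'.1

end gen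

section fld

variable {F K : Type} [Field F] [Field K] [Algebra F K]

theorem mem_Fx (H : Subgroup (K ≃ₐ[F] K)) (x : K) : x ∈ Fx H ↔ ∀ h ∈ H, h x = x := by
  unfold Fx
  exact IntermediateField.mem_fixedField_iff H x

theorem map_sg (g : K ≃ₐ[F] K) (a : ℤˣ) : g ((a : ℤ) : K) = ((a : ℤ) : K) := map_intCast g _

theorem sg_mul (a b : ℤˣ) : (((a * b : ℤˣ) : ℤ) : K) = ((a : ℤ) : K) * ((b : ℤ) : K) := by
  push_cast
  rfl

theorem sg_ne (a : ℤˣ) : ((a : ℤ) : K) ≠ 0 := by
  rcases Int.units_eq_one_or a with rfl | rfl <;> simp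

theorem sg_inj (h2 : (2 : K) ≠ 0) {a b : ℤˣ} (h : ((a : ℤ) : K) = ((b : ℤ) : K)) : a = b := by
  rcases Int.units_eq_one_or a with rfl | rfl <;> rcases Int.units_eq_one_or b with rfl | rfl
  · rfl
  · exfalso
    apply h2
    simp only [Units.val_one, Int.cast_one, Units.val_neg, Int.cast_neg] at h
    linear_combination h
  · exfalso
    apply h2
    simp only [Units.val_one, Int.cast_one, Units.val_neg, Int.cast_neg] at h
    linear_combination -h
  · rfl

/-- KUM -/
theorem kum : S_KUM := by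
  intro F K _ _ _ _ H hH χ hχ
  have hc := kerOn_closed hχ hH
  by_cases hall : ∀ h ∈ H, χ h = 1
  · refine ⟨1, one_ne_zero, fun h hh => ?_⟩
    rw [hall h hh, map_one]
    simp
  · push Not at hall
    obtain ⟨τ, hτ, hτ1⟩ := hall
    have hτm : χ τ = -1 := (Int.units_eq_one_or (χ τ)).resolve_left hτ1
    let H₁ : ClosedSubgroup (K ≃ₐ[F] K) := { toSubgroup := kerOn H χ hχ, isClosed' := hc }
    have h1 := InfiniteGalois.fixingSubgroup_fixedField H₁
    have h2 : ∃ x ∈ IntermediateField.fixedField (kerOn H χ hχ), τ x ≠ x := by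
      by_contra hcon
      push Not at hcon
      have h3 : τ ∈ (IntermediateField.fixedField (kerOn H χ hχ)).fixingSubgroup := by
        rw [IntermediateField.mem_fixingSubgroup_iff]
        intro x hx
        exact hcon x hx
      have h4 : τ ∈ kerOn H χ hχ := by
        rw [← show (IntermediateField.fixedField (kerOn H χ hχ)).fixingSubgroup = kerOn H χ hχ from h1]
        exact h3
      exact hτ1 h4.2
    obtain ⟨x, hx, hx'⟩ := h2
    rw [IntermediateField.mem_fixedField_iff] at hx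
    have hττ : τ * τ ∈ kerOn H χ hχ := ⟨H.mul_mem hτ hτ, by rw [hχ.mul τ hτ τ hτ, hτm]; rfl⟩
    -- the action on `s = x - τ x`
    have hker : ∀ h ∈ kerOn H χ hχ, h (x - τ x) = x - τ x := by
      rintro h ⟨hh, hh'⟩
      have h5 : τ⁻¹ * h * τ ∈ kerOn H χ hχ := by
        refine ⟨H.mul_mem (H.mul_mem (H.inv_mem hτ) hh) hτ, ?_⟩
        rw [hχ.mul _ (H.mul_mem (H.inv_mem hτ) hh) τ hτ, hχ.mul _ (H.inv_mem hτ) h hh, hom_inv hχ hτ,
          hh', mul_one, inv_mul_cancel]
      have h6 : h (τ x) = τ x := by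
        have h7 := hx _ h5
        have h8 : h (τ x) = τ ((τ⁻¹ * h * τ) x) := by
          rw [← AlgEquiv.mul_apply, ← AlgEquiv.mul_apply]
          congr 1
          group
        rw [h8, h7]
      rw [map_sub, hx h ⟨hh, hh'⟩, h6]
    have hτs : τ (x - τ x) = -(x - τ x) := by
      have h9 : τ (τ x) = x := by
        have := hx _ hττ
        rwa [AlgEquiv.mul_apply] at this
      rw [map_sub, h9]
      ring
    refine ⟨x - τ x, fun h0 => hx' (sub_eq_zero.mp h0).symm, fun h hh => ?_⟩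
    rcases Int.units_eq_one_or (χ h) with h1' | h1'
    · rw [hker h ⟨hh, h1'⟩, h1']
      simp
    · have h10 : τ⁻¹ * h ∈ kerOn H χ hχ := by
        refine ⟨H.mul_mem (H.inv_mem hτ) hh, ?_⟩
        rw [hχ.mul _ (H.inv_mem hτ) h hh, hom_inv hχ hτ, hτm, h1']
        rfl
      have h11 : h (x - τ x) = τ ((τ⁻¹ * h) (x - τ x)) := by
        rw [← AlgEquiv.mul_apply]
        congr 1
        group
      rw [h11, hker _ h10, hτs, h1']
      simp

end fld

end Pool.Agent.P8H63.FP
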