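import Pool.Agent.P8H63.FP.Kum

/-! # Project FP: packages LOCN, TWIST -/

set_option autoImplicit false

namespace Pool.Agent.P8H63.FP

open Pool.Agent.P8H47.FP

variable {F K : Type} [Field F] [Field K] [Algebra F K]

theorem mem_st (r : K) (g : K ≃ₐ[F] K) : g ∈ MulAction.stabilizer (K ≃ₐ[F] K) r ↔ g r = r := Iff.rfl

theorem mem_st' {H : Subgroup (K ≃ₐ[F] K)} {r : K} {g : K ≃ₐ[F] K} :
    g ∈ H ⊓ MulAction.stabilizer (K ≃ₐ[F] K) r ↔ g ∈ H ∧ g r = r := Iff.rfl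

theorem st_open [IsGalois F K] (r : K) :
    IsOpen (MulAction.stabilizer (K ≃ₐ[F] K) r : Set (K ≃ₐ[F] K)) :=
  stabilizer_isOpen_of_isIntegral r

theorem inf_closed [IsGalois F K] {H : Subgroup (K ≃ₐ[F] K)} (hH : IsClosed (H : Set (K ≃ₐ[F] K))) (r : K) :
    IsClosed ((H ⊓ MulAction.stabilizer (K ≃ₐ[F] K) r : Subgroup (K ≃ₐ[F] K)) : Set (K ≃ₐ[F] K)) := by
  rw [Subgroup.coe_inf]
  exact hH.inter (Subgroup.isClosed_of_isOpen _ (st_open r))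

theorem app_mul (g h : K ≃ₐ[F] K) (x : K) : (g * h) x = g (h x) := AlgEquiv.mul_apply g h x

section tau

variable {H : Subgroup (K ≃ₐ[F] K)} {r : K} {τ : K ≃ₐ[F] K}

theorem inv_r (hr : τ r = -r) : τ⁻¹ r = -r := by
  have h1 : τ⁻¹ (τ r) = r := by
    rw [← app_mul, inv_mul_cancel]
    rfl
  rw [hr, map_neg] at h1
  exact neg_eq_iff_eq_neg.mp h1

theorem sq_mem (hτ : τ ∈ H) (hr : τ r = -r) : τ * τ ∈ H ⊓ MulAction.stabilizer (K ≃ₐ[F] K) r := by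
  rw [mem_st']
  refine ⟨H.mul_mem hτ hτ, ?_⟩
  rw [app_mul, hr, map_neg, hr, neg_neg]

theorem conj_mem (hτ : τ ∈ H) (hr : τ r = -r) {h : K ≃ₐ[F] K}
    (hh : h ∈ H ⊓ MulAction.stabilizer (K ≃ₐ[F] K) r) :
    τ * h * τ⁻¹ ∈ H ⊓ MulAction.stabilizer (K ≃ₐ[F] K) r := by
  rw [mem_st'] at hh ⊢
  refine ⟨H.mul_mem (H.mul_mem hτ hh.1) (H.inv_mem hτ), ?_⟩
  rw [app_mul, app_mul, inv_r hr, map_neg, hh.2, map_neg, hr, neg_neg]

theorem conj_mem' (hτ : τ ∈ H) (hr : τ r = -r) {h : K ≃ₐ[F] K}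
    (hh : h ∈ H ⊓ MulAction.stabilizer (K ≃ₐ[F] K) r) :
    τ⁻¹ * h * τ ∈ H ⊓ MulAction.stabilizer (K ≃ₐ[F] K) r := by
  rw [mem_st'] at hh ⊢
  refine ⟨H.mul_mem (H.mul_mem (H.inv_mem hτ) hh.1) hτ, ?_⟩
  rw [app_mul, app_mul, hr, map_neg, hh.2, map_neg, inv_r hr, neg_neg]

/-- the two conjugates have the same value -/
theorem conj_eq (hτ : τ ∈ H) (hr : τ r = -r) {δ : (K ≃ₐ[F] K) → ℤˣ}
    (hδ : HomOn (H ⊓ MulAction.stabilizer (K ≃ₐ[F] K) r) δ) {h : K ≃ₐ[F] K}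
    (hh : h ∈ H ⊓ MulAction.stabilizer (K ≃ₐ[F] K) r) : δ (τ * h * τ⁻¹) = δ (τ⁻¹ * h * τ) := by
  have h1 := conj_mem' hτ hr hh
  have h2 := sq_mem hτ hr
  have h3 : τ * h * τ⁻¹ = (τ * τ) * (τ⁻¹ * h * τ) * (τ * τ)⁻¹ := by group
  rw [h3, hδ.mul _ (Subgroup.mul_mem _ h2 h1) _ (Subgroup.inv_mem _ h2), hδ.mul _ h2 _ h1, hom_inv hδ h2,
    mul_comm, ← mul_assoc, inv_mul_cancel, one_mul]

/-- an element of `H` either fixes `r` or is `τ` times such an element -/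
theorem dich (hτ : τ ∈ H) (hr : τ r = -r) (hr2 : r ^ 2 ∈ Fx H) {g : K ≃ₐ[F] K} (hg : g ∈ H) :
    g ∈ H ⊓ MulAction.stabilizer (K ≃ₐ[F] K) r ∨
      ∃ h ∈ H ⊓ MulAction.stabilizer (K ≃ₐ[F] K) r, g = τ * h := by
  rw [mem_Fx] at hr2
  have h1 := hr2 g hg
  rw [map_pow, sq_eq_sq_iff_eq_or_eq_neg] at h1
  rcases h1 with h1 | h1
  · left
    rw [mem_st']
    exact ⟨hg, h1⟩
  · right
    refine ⟨τ⁻¹ * g, ?_, by group⟩
    rw [mem_st']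
    refine ⟨H.mul_mem (H.inv_mem hτ) hg, ?_⟩
    rw [app_mul, h1, map_neg, inv_r hr, neg_neg]

/-- the product `f' τ(f')` of a Kummer generator with its conjugate -/
theorem rho_ker (hτ : τ ∈ H) (hr : τ r = -r) {δ : (K ≃ₐ[F] K) → ℤˣ}
    (hδ : HomOn (H ⊓ MulAction.stabilizer (K ≃ₐ[F] K) r) δ) {f : K}
    (hf : ∀ h ∈ H ⊓ MulAction.stabilizer (K ≃ₐ[F] K) r, h f = (((δ h : ℤˣ) : ℤ) : K) * f) {h : K ≃ₐ[F] K}
    (hh : h ∈ H ⊓ MulAction.stabilizer (K ≃ₐ[F] K) r) :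
    h (f * τ f) = (((δ h * δ (τ * h * τ⁻¹) : ℤˣ) : ℤ) : K) * (f * τ f) := by
  have h1 : h (τ f) = τ ((τ⁻¹ * h * τ) f) := by
    rw [← app_mul, ← app_mul]
    congr 1
    group
  rw [map_mul, h1, hf _ (conj_mem' hτ hr hh), hf h hh, map_mul, map_sg, conj_eq hτ hr hδ hh, sg_mul]
  ring

theorem rho_tau (hτ : τ ∈ H) (hr : τ r = -r) {δ : (K ≃ₐ[F] K) → ℤˣ} {f : K}
    (hf : ∀ h ∈ H ⊓ MulAction.stabilizer (K ≃ₐ[F] K) r, h f = (((δ h : ℤˣ) : ℤ) : K) * f) :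
    τ (f * τ f) = (((δ (τ * τ) : ℤˣ) : ℤ) : K) * (f * τ f) := by
  have h1 := hf _ (sq_mem hτ hr)
  rw [app_mul] at h1
  rw [map_mul, h1]
  ring

/-- elements fixed by `H ⊓ stab r` are `u + v r` -/
theorem split (h2 : (2 : K) ≠ 0) (hτ : τ ∈ H) (hr0 : r ≠ 0) (hr : τ r = -r) (hr2 : r ^ 2 ∈ Fx H) {f : K}
    (hf : ∀ h ∈ H ⊓ MulAction.stabilizer (K ≃ₐ[F] K) r, h f = f) :
    ∃ u ∈ Fx H, ∃ v ∈ Fx H, f = u + v * r ∧ τ f = u - v * r := by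
  have h3 : ∀ h ∈ H ⊓ MulAction.stabilizer (K ≃ₐ[F] K) r, h (τ f) = τ f := by
    intro h hh
    have h1 : h (τ f) = τ ((τ⁻¹ * h * τ) f) := by
      rw [← app_mul, ← app_mul]
      congr 1
      group
    rw [h1, hf _ (conj_mem' hτ hr hh)]
  have h4 : τ (τ f) = f := by
    have := hf _ (sq_mem hτ hr)
    rwa [app_mul] at this
  have hh2 : ∀ g : K ≃ₐ[F] K, g 2 = 2 := fun g => map_ofNat g 2
  have key : ∀ w : K, (∀ h ∈ H ⊓ MulAction.stabilizer (K ≃ₐ[F] K) r, h w = w) → τ w = w → w ∈ Fx H := by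
    intro w hw hw'
    rw [mem_Fx]
    intro g hg
    rcases dich hτ hr hr2 hg with h5 | ⟨h, h5, rfl⟩
    · exact hw g h5
    · rw [app_mul, hw h h5, hw']
  refine ⟨(f + τ f) / 2, key _ ?_ ?_, (f - τ f) / (2 * r), key _ ?_ ?_, ?_, ?_⟩
  · intro h hh
    rw [map_div₀, map_add, hf h hh, h3 h hh, hh2]
  · rw [map_div₀, map_add, h4, hh2, add_comm]
  · intro h hh
    have := (mem_st'.mp hh).2
    rw [map_div₀, map_sub, map_mul, hf h hh, h3 h hh, hh2, this]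
  · rw [map_div₀, map_sub, map_mul, h4, hh2, hr]
    field_simp
    ring
  · field_simp
    ring
  · field_simp
    ring

end tau

/-- LOCN -/
theorem locn : S_LOCN := by
  intro hK F K _ _ _ _ h2 H hH r τ hr2 hr0 hτ hr X δ hX hδ hXδ hXτ s hs0 hs
  obtain ⟨f, hf0, hf⟩ := hK F K (H ⊓ MulAction.stabilizer (K ≃ₐ[F] K) r) (inf_closed hH r) δ hδ
  have hρ1 : ∀ h ∈ H, h (f * τ f) = (((X h : ℤˣ) : ℤ) : K) * (f * τ f) := by
    have h3 : ∀ h ∈ H ⊓ MulAction.stabilizer (K ≃ₐ[F] K) r,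
        h (f * τ f) = (((X h : ℤˣ) : ℤ) : K) * (f * τ f) := by
      intro h hh
      rw [rho_ker hτ hr hδ hf hh, hXδ h (mem_st'.mp hh).1 (mem_st'.mp hh).2]
    intro g hg
    rcases dich hτ hr hr2 hg with h5 | ⟨h, h5, rfl⟩
    · exact h3 g h5
    · rw [app_mul, h3 h h5, map_mul, map_sg, rho_tau hτ hr hf, hX.mul τ hτ h (mem_st'.mp h5).1, hXτ, sg_mul]
      ring
  have hτf : τ f ≠ 0 := by
    intro h0
    exact hf0 ((map_eq_zero_iff τ τ.injective).mp h0)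
  have hρ0 : f * τ f ≠ 0 := mul_ne_zero hf0 hτf
  have hw : s / (f * τ f) ∈ Fx H := by
    rw [mem_Fx]
    intro g hg
    rw [map_div₀, hs g hg, hρ1 g hg, mul_div_mul_left _ _ (sg_ne _)]
  have hf2 : ∀ h ∈ H ⊓ MulAction.stabilizer (K ≃ₐ[F] K) r, h (f ^ 2) = f ^ 2 := by
    intro h hh
    rw [map_pow, hf h hh, mul_pow]
    rcases Int.units_eq_one_or (δ h) with h1 | h1 <;> simp [h1]
  obtain ⟨u, hu, v, hv, huv, huv'⟩ := split h2 hτ hr0 hr hr2 hf2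
  refine ⟨s / (f * τ f) * u, (Fx H).mul_mem hw hu, s / (f * τ f) * v, (Fx H).mul_mem hw hv, ?_⟩
  have h6 : (f * τ f) ^ 2 = u ^ 2 - r ^ 2 * v ^ 2 := by
    rw [mul_pow, ← map_pow, huv', huv]
    ring
  have h7 : s ^ 2 = (s / (f * τ f)) ^ 2 * (f * τ f) ^ 2 := by
    field_simp
  rw [h7, h6]
  ring

/-- TWIST -/
theorem twist : S_TWIST := by
  classical
  intro F K _ _ _ _ h2 hsq U r σ hr2 hr0 hσ hr X s hs0 hs ⟨u, hu, v, hv, huv⟩
  obtain ⟨f, hf⟩ := hsq (u + v * r)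
  rw [mem_Fx] at hu hv
  have hf0 : f ≠ 0 := by
    intro h0
    rw [h0] at hf
    apply hs0
    have h3 : u + v * r = 0 := by rw [← hf]; ring
    have h4 : s ^ 2 = 0 := by
      rw [huv]
      have : u = -(v * r) := by linear_combination h3
      rw [this]
      ring
    exact pow_eq_zero_iff (two_ne_zero) |>.mp h4
  let δ : (K ≃ₐ[F] K) → ℤˣ := fun h => if h f = f then 1 else -1
  have hδf : ∀ h ∈ U ⊓ MulAction.stabilizer (K ≃ₐ[F] K) r, h f = (((δ h : ℤˣ) : ℤ) : K) * f := by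
    intro h hh
    obtain ⟨hh1, hh2⟩ := mem_st'.mp hh
    have h3 : (h f) ^ 2 = f ^ 2 := by
      rw [← map_pow, hf, map_add, map_mul, hu h hh1, hv h hh1, hh2]
    by_cases h4 : h f = f
    · have : δ h = 1 := if_pos h4
      rw [this, h4]
      simp
    · have : δ h = -1 := if_neg h4
      rw [this]
      rcases sq_eq_sq_iff_eq_or_eq_neg.mp h3 with h5 | h5
      · exact absurd h5 h4
      · rw [h5]
        simp
  have hδ : HomOn (U ⊓ MulAction.stabilizer (K ≃ₐ[F] K) r) δ := by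
    constructor
    · intro g hg h hh
      apply sg_inj h2
      apply mul_right_cancel₀ hf0
      rw [← hδf (g * h) (Subgroup.mul_mem _ hg hh), app_mul, hδf h hh, map_mul, map_sg, hδf g hg, sg_mul]
      ring
    · refine ⟨MulAction.stabilizer (K ≃ₐ[F] K) f, st_open f, fun v hv _ => ?_⟩
      exact if_pos ((mem_st f v).mp hv)
  have hσf : σ f ≠ 0 := by
    intro h0
    exact hf0 ((map_eq_zero_iff σ σ.injective).mp h0)
  have hρ0 : f * σ f ≠ 0 := mul_ne_zero hf0 hσf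
  have hρs : (f * σ f) ^ 2 = s ^ 2 := by
    rw [mul_pow, ← map_pow, hf, map_add, map_mul, hu σ hσ, hv σ hσ, hr, huv]
    ring
  have hρ1 : ∀ h ∈ U, h (f * σ f) = (((X h : ℤˣ) : ℤ) : K) * (f * σ f) := by
    intro h hh
    rcases sq_eq_sq_iff_eq_or_eq_neg.mp hρs with h5 | h5
    · rw [h5, hs h hh]
    · rw [h5, map_neg, hs h hh]
      ring
  refine ⟨δ, hδ, fun h hh hhr => ?_, ?_⟩
  · apply sg_inj h2
    apply mul_right_cancel₀ hρ0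
    rw [← hρ1 h hh, rho_ker hσ hr hδ hδf (mem_st'.mpr ⟨hh, hhr⟩)]
  · apply sg_inj h2
    apply mul_right_cancel₀ hρ0
    rw [← hρ1 σ hσ, rho_tau hσ hr hδf]

end Pool.Agent.P8H63.FP
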