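import Pool.Agent.P8H47.FP.Stm

/-! # Project FP: package QSUR -/

set_option autoImplicit false

namespace Pool.Agent.P8H63.FP

open Pool.Agent.P8H47.FP

theorem qsur_key {K : Type} [Field K] (h2 : (2 : K) ≠ 0) (E : Subfield K) {a α β w z₀ z₁ b : K} (haE : a ∈ E)
    (ha : a ≠ 0) (hα : α ∈ E) (hβ : β ∈ E) (hw : w ∈ E) (hz₀ : z₀ ∈ E) (hz₁ : z₁ ∈ E) (hbE : b ∈ E) (hb : b ≠ 0)
    (hw0 : w ≠ 0) (hbn : b = (α ^ 2 - a * β ^ 2) * w ^ 2) (hbz : b = z₀ ^ 2 - a * z₁ ^ 2) :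
    ∃ u ∈ E, u ≠ 0 ∧ ∃ g ∈ E, ∃ d ∈ E, g ^ 2 - a * d ^ 2 ≠ 0 ∧
      z₀ = u * (α * (g ^ 2 + a * d ^ 2) + 2 * a * β * g * d) ∧
      z₁ = u * (β * (g ^ 2 + a * d ^ 2) + 2 * α * g * d) := by
  obtain ⟨t₀, ht₀⟩ : ∃ t, t = w * (α * z₀ - a * β * z₁) / b := ⟨_, rfl⟩
  obtain ⟨t₁, ht₁⟩ : ∃ t, t = w * (β * z₀ - α * z₁) / b := ⟨_, rfl⟩
  have ht₀E : t₀ ∈ E := by
    rw [ht₀]
    exact E.div_mem (E.mul_mem hw (E.sub_mem (E.mul_mem hα hz₀) (E.mul_mem (E.mul_mem haE hβ) hz₁))) hbE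
  have ht₁E : t₁ ∈ E := by
    rw [ht₁]
    exact E.div_mem (E.mul_mem hw (E.sub_mem (E.mul_mem hβ hz₀) (E.mul_mem hα hz₁))) hbE
  have h2E : (2 : K) ∈ E := by
    have h := E.add_mem E.one_mem E.one_mem
    rwa [one_add_one_eq_two] at h
  have hb₀ : b * t₀ = w * (α * z₀ - a * β * z₁) := by
    rw [ht₀]
    field_simp
  have hb₁ : b * t₁ = w * (β * z₀ - α * z₁) := by
    rw [ht₁]
    field_simp
  have hN : t₀ ^ 2 - a * t₁ ^ 2 = 1 := by
    have h : b ^ 2 * (t₀ ^ 2 - a * t₁ ^ 2) = b ^ 2 * 1 := by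
      have h1 : b ^ 2 * (t₀ ^ 2 - a * t₁ ^ 2) = (b * t₀) ^ 2 - a * (b * t₁) ^ 2 := by ring
      rw [h1, hb₀, hb₁]
      have h3 : b ^ 2 * 1 = ((α ^ 2 - a * β ^ 2) * w ^ 2) * (z₀ ^ 2 - a * z₁ ^ 2) := by
        rw [← hbn, ← hbz]
        ring
      rw [h3]
      ring
    exact mul_left_cancel₀ (pow_ne_zero 2 hb) h
  have h3 : α * w = z₀ * t₀ + a * z₁ * t₁ := by
    apply mul_left_cancel₀ hb
    have h1 : b * (z₀ * t₀ + a * z₁ * t₁) = z₀ * (b * t₀) + a * z₁ * (b * t₁) := by ring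
    rw [h1, hb₀, hb₁, hbz]
    ring
  have h4 : β * w = z₀ * t₁ + z₁ * t₀ := by
    apply mul_left_cancel₀ hb
    have h1 : b * (z₀ * t₁ + z₁ * t₀) = z₀ * (b * t₁) + z₁ * (b * t₀) := by ring
    rw [h1, hb₀, hb₁, hbz]
    ring
  have h5 : z₀ = w * (α * t₀ - a * β * t₁) := by
    have h1 : w * (α * t₀ - a * β * t₁) = (α * w) * t₀ - a * (β * w) * t₁ := by ring
    rw [h1, h3, h4]
    linear_combination (-z₀) * hN
  have h6 : z₁ = w * (β * t₀ - α * t₁) := by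
    have h1 : w * (β * t₀ - α * t₁) = (β * w) * t₀ - (α * w) * t₁ := by ring
    rw [h1, h3, h4]
    linear_combination (-z₁) * hN
  by_cases hc : 1 + t₀ = 0
  · have h7 : t₀ = -1 := by linear_combination hc
    have h8 : t₁ = 0 := by
      have h9 : a * t₁ ^ 2 = 0 := by
        rw [h7] at hN
        linear_combination -hN
      rcases mul_eq_zero.mp h9 with h | h
      · exact absurd h ha
      · exact pow_eq_zero_iff (two_ne_zero) |>.mp h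
    refine ⟨-w, E.neg_mem hw, neg_ne_zero.mpr hw0, 1, E.one_mem, 0, E.zero_mem, by simp, ?_, ?_⟩
    · rw [h7, h8] at h5
      linear_combination h5
    · rw [h7, h8] at h6
      linear_combination h6
  · obtain ⟨c, hc'⟩ : ∃ c, c = 2 * (1 + t₀) := ⟨_, rfl⟩
    have hc0 : c ≠ 0 := by
      rw [hc']
      exact mul_ne_zero h2 hc
    have hcE : c ∈ E := by
      rw [hc']
      exact E.mul_mem h2E (E.add_mem E.one_mem ht₀E)
    have e1 : (1 / 2 : K) ^ 2 + a * (-t₁ / c) ^ 2 = t₀ / c := by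
      have h9 : c ^ 2 + 4 * (a * t₁ ^ 2) = 4 * t₀ * c := by
        rw [hc']
        linear_combination (-4) * hN
      have h40 : (4 : K) ≠ 0 := by
        have : (4 : K) = 2 * 2 := by norm_num
        rw [this]
        exact mul_ne_zero h2 h2
      have h10 : (1 / 2 : K) ^ 2 + a * (-t₁ / c) ^ 2 = (c ^ 2 + 4 * (a * t₁ ^ 2)) / (4 * c ^ 2) := by
        field_simp
        ring
      rw [h10, h9]
      field_simp
    refine ⟨w * c, E.mul_mem hw hcE, mul_ne_zero hw0 hc0, 1 / 2, E.div_mem E.one_mem h2E, -t₁ / c,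
      E.div_mem (E.neg_mem ht₁E) hcE, ?_, ?_, ?_⟩
    · have h9 : (1 / 2 : K) ^ 2 - a * (-t₁ / c) ^ 2 = 1 / c := by
        have h10 : a * (-t₁ / c) ^ 2 = t₀ / c - (1 / 2 : K) ^ 2 := by linear_combination e1
        rw [h10]
        have h11 : (2 : K) * (1 / 2) ^ 2 = (1 + t₀) / c := by
          rw [hc']
          field_simp
        linear_combination h11
      rw [h9]
      exact one_div_ne_zero hc0
    · rw [e1]
      have h9 : w * c * (α * (t₀ / c) + 2 * a * β * (1 / 2) * (-t₁ / c)) = w * (α * t₀ - a * β * t₁) := by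
        field_simp
        ring
      rw [h9]
      exact h5
    · rw [e1]
      have h9 : w * c * (β * (t₀ / c) + 2 * α * (1 / 2) * (-t₁ / c)) = w * (β * t₀ - α * t₁) := by
        field_simp
        ring
      rw [h9]
      exact h6

/-- QSUR -/
theorem qsur : S_QSUR := by
  intro K _ h2 ι M E hLG a haM ha α β hαβ
  have hn : ∀ i, α i ^ 2 - a * β i ^ 2 ∈ E i := fun i =>
    (E i).sub_mem ((E i).pow_mem (hαβ i).1 2) ((E i).mul_mem (hLG.le i haM) ((E i).pow_mem (hαβ i).2.1 2))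
  obtain ⟨b, hbM, hb0, hb⟩ := hLG.sur (fun i => α i ^ 2 - a * β i ^ 2) (fun i => ⟨hn i, (hαβ i).2.2⟩)
  choose w hwE hw0 hbw using hb
  have hloc : Nm M a b := by
    refine hLG.loc a haM b hbM ha hb0 (fun i => ?_)
    refine ⟨α i * w i, (E i).mul_mem (hαβ i).1 (hwE i), β i * w i, (E i).mul_mem (hαβ i).2.1 (hwE i), ?_⟩
    rw [hbw i]
    ring
  obtain ⟨z₀, hz₀, z₁, hz₁, hz⟩ := hloc
  have key : ∀ i, ∃ u ∈ E i, u ≠ 0 ∧ ∃ g ∈ E i, ∃ d ∈ E i, g ^ 2 - a * d ^ 2 ≠ 0 ∧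
      z₀ = u * (α i * (g ^ 2 + a * d ^ 2) + 2 * a * β i * g * d) ∧
      z₁ = u * (β i * (g ^ 2 + a * d ^ 2) + 2 * α i * g * d) := fun i =>
    qsur_key h2 (E i) (hLG.le i haM) ha (hαβ i).1 (hαβ i).2.1 (hwE i) (hLG.le i hz₀) (hLG.le i hz₁)
      (hLG.le i hbM) hb0 (hw0 i) (hbw i) hz
  choose u huE hu0 g hgE d hdE hgd h0 h1 using key
  obtain ⟨e, heM, he0, he⟩ := hLG.sur (fun i => (u i)⁻¹) (fun i => ⟨(E i).inv_mem (huE i), inv_ne_zero (hu0 i)⟩)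
  refine ⟨z₀ * e, M.mul_mem hz₀ heM, z₁ * e, M.mul_mem hz₁ heM, ?_, fun i => ?_⟩
  · have h3 : (z₀ * e) ^ 2 - a * (z₁ * e) ^ 2 = e ^ 2 * b := by
      rw [hz]
      ring
    rw [h3]
    exact mul_ne_zero (pow_ne_zero 2 he0) hb0
  · obtain ⟨w', hw'E, hw'0, hw'⟩ := he i
    have h4 : u i * e = w' ^ 2 := by
      rw [hw', ← mul_assoc, mul_inv_cancel₀ (hu0 i), one_mul]
    refine ⟨g i * w', (E i).mul_mem (hgE i) hw'E, d i * w', (E i).mul_mem (hdE i) hw'E, ?_, ?_, ?_⟩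
    · have h3 : (g i * w') ^ 2 - a * (d i * w') ^ 2 = w' ^ 2 * (g i ^ 2 - a * d i ^ 2) := by ring
      rw [h3]
      exact mul_ne_zero (pow_ne_zero 2 hw'0) (hgd i)
    · have h5 : z₀ * e = (α i * (g i ^ 2 + a * d i ^ 2) + 2 * a * β i * g i * d i) * (u i * e) := by
        linear_combination e * h0 i
      rw [h5, h4]
      ring
    · have h5 : z₁ * e = (β i * (g i ^ 2 + a * d i ^ 2) + 2 * α i * g i * d i) * (u i * e) := by
        linear_combination e * h1 i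
      rw [h5, h4]
      ring

end Pool.Agent.P8H63.FP
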