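import Pool.Agent.P8H47.FP.Stm5
import Pool.Agent.P8H55.EC2.Ap

/-! # Project FP: package FO, an element which is small at one place and large at the other one -/

set_option autoImplicit false

namespace Pool.Agent.P8H63.FP

open Pool.Agent.P8H47.FP
open Pool.Agent.P8H47.EC2 (UU)
open Pool.Agent.P8H55.EC2 (UU_symm exists_g)

variable {F : Type} [Field F]

theorem mem_Arch (e : OrdEmb F) (x : F) : x ∈ Arch e ↔ ∃ n : ℕ, |e.f x| ≤ n := Iff.rfl

/-- a unit as the product of two elements -/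
theorem mem_UU {O O' : ValuationSubring F} {x : Fˣ} : x ∈ UU O O' ↔
    (∃ a ∈ O, ∃ b ∈ O', (x : F) = a * b) ∧ ∃ a ∈ O, ∃ b ∈ O', ((x⁻¹ : Fˣ) : F) = a * b := Iff.rfl

theorem f_ne (e : OrdEmb F) (x : Fˣ) : e.f (x : F) ≠ 0 := by
  rw [Ne, map_eq_zero]
  exact x.ne_zero

theorem f_inv (e : OrdEmb F) (x : Fˣ) : |e.f ((x⁻¹ : Fˣ) : F)| = |e.f (x : F)|⁻¹ := by
  rw [Units.val_inv_eq_inv_val, map_inv₀, abs_inv]

theorem natCast_mem' (O : ValuationSubring F) (n : ℕ) : (n : F) ∈ O := natCast_mem O n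

/-- a valuation ring and an ordering -/
theorem fo2 (O : ValuationSubring F) (e : OrdEmb F) (N : ℕ) (y y' : Fˣ) (hy : y ∈ UU O (Arch e))
    (hy' : y' ∈ UU O (Arch e)) :
    ∃ g : Fˣ, (∃ b ∈ O, (g : F) = y * b) ∧ |e.f ((g⁻¹ : Fˣ) : F)| * N ≤ |e.f (y' : F)| := by
  have h1 := (UU O (Arch e)).mul_mem hy hy'
  obtain ⟨-, a, ha, b, hb, hab⟩ := mem_UU.mp h1
  obtain ⟨n, hn⟩ := (mem_Arch e b).mp hb
  have hab0 : a * b ≠ 0 := by
    rw [← hab]
    exact ((y * y')⁻¹).ne_zero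
  have ha0 : a ≠ 0 := left_ne_zero_of_mul hab0
  have hc0 : ((N * n + 1 : ℕ) : F) ≠ 0 := by
    intro h
    have h2 := congrArg e.f h
    rw [map_natCast, map_zero] at h2
    have h3 : (0 : e.R) < ((N * n + 1 : ℕ) : e.R) := Nat.cast_pos.mpr (Nat.succ_pos _)
    exact h3.ne' h2
  let u : Fˣ := Units.mk0 (((N * n + 1 : ℕ) : F) * a) (mul_ne_zero hc0 ha0)
  have hu : (u : F) = ((N * n + 1 : ℕ) : F) * a := rfl
  refine ⟨y * u, ⟨(u : F), ?_, by rw [Units.val_mul]⟩, ?_⟩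
  · rw [hu]
    exact O.mul_mem _ _ (natCast_mem' O _) ha
  · have hpos : 0 < |e.f ((y * u : Fˣ) : F)| := abs_pos.mpr (f_ne e _)
    rw [f_inv, inv_mul_le_iff₀ hpos, Units.val_mul, map_mul, abs_mul]
    -- `N ≤ |y| |u| |y'|`
    have h2 : (1 : e.R) = |e.f (y : F)| * |e.f (y' : F)| * (|e.f a| * |e.f b|) := by
      rw [← abs_mul, ← abs_mul, ← abs_mul, ← map_mul, ← map_mul, ← map_mul, ← hab, ← Units.val_mul,
        ← Units.val_mul, mul_inv_cancel, Units.val_one, map_one, abs_one]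
    have h3 : |e.f (u : F)| = ((N * n + 1 : ℕ) : e.R) * |e.f a| := by
      rw [hu, map_mul, map_natCast, abs_mul, Nat.abs_cast]
    rw [h3]
    have h4 : (0 : e.R) ≤ |e.f (y : F)| * |e.f (y' : F)| * |e.f a| := by positivity
    have h5 : (N : e.R) * |e.f b| ≤ ((N * n + 1 : ℕ) : e.R) := by
      push_cast
      have h6 : (N : e.R) * |e.f b| ≤ N * n := mul_le_mul_of_nonneg_left hn (Nat.cast_nonneg _)
      linarith
    calc (N : e.R) = N * 1 := (mul_one _).symm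
      _ = (|e.f (y : F)| * |e.f (y' : F)| * |e.f a|) * (N * |e.f b|) := by
          rw [h2]
          ring
      _ ≤ (|e.f (y : F)| * |e.f (y' : F)| * |e.f a|) * ((N * n + 1 : ℕ) : e.R) :=
          mul_le_mul_of_nonneg_left h5 h4
      _ = _ := by ring

/-- two orderings, the ring of the second is not contained in the one of the first -/
theorem fo4a (e e' : OrdEmb F) (N : ℕ) (y y' : Fˣ) (hy : y ∈ UU (Arch e) (Arch e'))
    (hy' : y' ∈ UU (Arch e) (Arch e')) (h : ¬ Arch e' ≤ Arch e) :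
    ∃ g : Fˣ, |e.f (g : F)| * N ≤ |e.f (y : F)| ∧ |e'.f ((g⁻¹ : Fˣ) : F)| * N ≤ |e'.f (y' : F)| := by
  obtain ⟨a, ha, ha'⟩ := SetLike.not_le_iff_exists.mp h
  have ha0 : a ≠ 0 := by
    rintro rfl
    exact ha' (Arch e).zero_mem
  let ν : Fˣ := (Units.mk0 a ha0)⁻¹
  have hν : ((ν⁻¹ : Fˣ) : F) = a := by
    simp only [ν, inv_inv, Units.val_mk0]
  have hνm : (ν : F) ∈ Arch e := by
    rcases (Arch e).mem_or_inv_mem a with h1 | h1
    · exact absurd h1 ha'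
    · exact h1
  have hνU : ν ∈ UU (Arch e) (Arch e') := by
    rw [mem_UU]
    exact ⟨⟨ν, hνm, 1, (Arch e').one_mem, by rw [mul_one]⟩, 1, (Arch e).one_mem, a, ha, by rw [hν, one_mul]⟩
  obtain ⟨g, ⟨b, hb, hg⟩, hg'⟩ := fo2 (Arch e) e' N (y * ν) y' ((UU (Arch e) (Arch e')).mul_mem hy hνU) hy'
  refine ⟨g, ?_, hg'⟩
  obtain ⟨n, hn⟩ := (mem_Arch e b).mp hb
  rw [hg, Units.val_mul, map_mul, map_mul, abs_mul, abs_mul]
  have h1 : ((n * N : ℕ) : e.R) < |e.f a| := by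
    by_contra h2
    exact ha' ((mem_Arch e a).mpr ⟨n * N, not_lt.mp h2⟩)
  have h2 : |e.f (ν : F)| * |e.f a| = 1 := by
    rw [← abs_mul, ← map_mul, ← hν, ← Units.val_mul, mul_inv_cancel, Units.val_one, map_one, abs_one]
  have h3 : |e.f (ν : F)| * (|e.f b| * N) ≤ 1 := by
    rw [← h2]
    apply mul_le_mul_of_nonneg_left _ (abs_nonneg _)
    refine le_trans ?_ h1.le
    push_cast
    exact mul_le_mul_of_nonneg_right hn (Nat.cast_nonneg _)
  calc |e.f (y : F)| * |e.f (ν : F)| * |e.f b| * N = |e.f (y : F)| * (|e.f (ν : F)| * (|e.f b| * N)) := by ring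
    _ ≤ |e.f (y : F)| * 1 := mul_le_mul_of_nonneg_left h3 (abs_nonneg _)
    _ = _ := mul_one _

theorem exists_floor {R : Type} [Field R] [LinearOrder R] [IsStrictOrderedRing R] {z : R} (hz : 0 ≤ z) {B : ℕ}
    (hB : z ≤ B) : ∃ m : ℕ, (m : R) ≤ z ∧ z < m + 1 := by
  classical
  have hex : ∃ k : ℕ, z < k + 1 := ⟨B, lt_of_le_of_lt hB (lt_add_one _)⟩
  refine ⟨Nat.find hex, ?_, Nat.find_spec hex⟩
  by_cases h0 : Nat.find hex = 0
  · rw [h0, Nat.cast_zero]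
    exact hz
  · obtain ⟨k, hk⟩ := Nat.exists_eq_succ_of_ne_zero h0
    have h1 : ¬ (z < k + 1) := Nat.find_min hex (by omega)
    rw [hk]
    push_cast
    exact not_lt.mp h1

/-- two orderings with the same ring of finite elements -/
theorem fo4c (e e' : OrdEmb F) (hS : Sep e e') (N : ℕ) (y y' : Fˣ) (hy : y ∈ UU (Arch e) (Arch e'))
    (hy' : y' ∈ UU (Arch e) (Arch e')) (h : Arch e' = Arch e) :
    ∃ g : Fˣ, |e.f (g : F)| * N ≤ |e.f (y : F)| ∧ |e'.f ((g⁻¹ : Fˣ) : F)| * N ≤ |e'.f (y' : F)| := by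
  have hprod : ∀ x : Fˣ, x ∈ UU (Arch e) (Arch e') → (x : F) ∈ Arch e ∧ ((x⁻¹ : Fˣ) : F) ∈ Arch e := by
    intro x hx
    obtain ⟨⟨a, ha, b, hb, h1⟩, a', ha', b', hb', h2⟩ := mem_UU.mp hx
    rw [h] at hb hb'
    exact ⟨by rw [h1]; exact (Arch e).mul_mem _ _ ha hb, by rw [h2]; exact (Arch e).mul_mem _ _ ha' hb'⟩
  obtain ⟨n₁, hn₁⟩ := (mem_Arch e _).mp (hprod y hy).2
  obtain ⟨n₂, hn₂⟩ := (mem_Arch e' _).mp (h ▸ (hprod y' hy').2)
  obtain ⟨u, huU, hu, hu'⟩ := hS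
  obtain ⟨k₁, hk₁⟩ := (mem_Arch e _).mp (hprod u huU).1
  obtain ⟨k, hk⟩ := (mem_Arch e _).mp (hprod u huU).2
  obtain ⟨M, hM⟩ : ∃ M : ℕ, M = N * n₁ + N * n₂ + 1 := ⟨_, rfl⟩
  have hM1 : 1 ≤ M := by omega
  -- the number `L`
  obtain ⟨L, hL⟩ : ∃ L : ℕ, L = k * (M ^ 2 + 1) := ⟨_, rfl⟩
  have huk : (1 : e.R) ≤ e.f u * k := by
    have h1 : |e.f (u : F)|⁻¹ ≤ k := by
      rw [← f_inv]
      exact hk
    rw [abs_of_pos hu] at h1
    rwa [inv_le_iff_one_le_mul₀ hu, mul_comm] at h1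
  have hz0 : (0 : e.R) ≤ e.f u * L := mul_nonneg hu.le (Nat.cast_nonneg _)
  have hzB : e.f u * L ≤ ((k₁ * L : ℕ) : e.R) := by
    push_cast
    apply mul_le_mul_of_nonneg_right _ (Nat.cast_nonneg _)
    exact (le_abs_self _).trans hk₁
  obtain ⟨m, hm1, hm2⟩ := exists_floor hz0 hzB
  have hmM : M ^ 2 + 1 ≤ m := by
    have h1 : ((M ^ 2 + 1 : ℕ) : e.R) ≤ e.f u * L := by
      rw [hL]
      push_cast
      have h2 : (0 : e.R) ≤ (M : e.R) ^ 2 + 1 := by positivity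
      calc ((M : e.R) ^ 2 + 1) = 1 * ((M : e.R) ^ 2 + 1) := (one_mul _).symm
        _ ≤ (e.f u * k) * ((M : e.R) ^ 2 + 1) := mul_le_mul_of_nonneg_right huk h2
        _ = _ := by ring
    have h3 : ((M ^ 2 + 1 : ℕ) : e.R) < ((m + 1 : ℕ) : e.R) := by
      push_cast
      push_cast at h1
      exact lt_of_le_of_lt h1 hm2
    have h4 := Nat.cast_lt.mp h3
    omega
  -- the element `h`
  obtain ⟨w, hw⟩ : ∃ w : F, w = (u : F) * L - m := ⟨_, rfl⟩
  have hwe : 0 ≤ e.f w ∧ e.f w ≤ 1 := by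
    rw [hw, map_sub, map_mul, map_natCast, map_natCast]
    constructor
    · linarith
    · linarith
  have hwe' : (m : e'.R) ≤ |e'.f w| := by
    rw [hw, map_sub, map_mul, map_natCast, map_natCast, abs_sub_comm]
    refine le_trans ?_ (le_abs_self _)
    have h1 : e'.f (u : F) * L ≤ 0 := mul_nonpos_of_nonpos_of_nonneg hu'.le (Nat.cast_nonneg _)
    linarith
  have hw0 : w ≠ 0 := by
    rintro h0
    rw [h0, map_zero, abs_zero] at hwe'
    have h1 : (m : e'.R) ≤ ((0 : ℕ) : e'.R) := by rw [Nat.cast_zero]; exact hwe'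
    have h2 := Nat.cast_le.mp h1
    omega
  have hMF : (M : F) ≠ 0 := by
    intro h0
    have h2 := congrArg e.f h0
    rw [map_natCast, map_zero] at h2
    have h3 : (0 : e.R) < (M : e.R) := Nat.cast_pos.mpr hM1
    exact h3.ne' h2
  let g : Fˣ := Units.mk0 (w / M) (div_ne_zero hw0 hMF)
  have hg : (g : F) = w / M := rfl
  have hMR : (0 : e.R) < M := Nat.cast_pos.mpr hM1
  have hMR' : (0 : e'.R) < M := Nat.cast_pos.mpr hM1
  have hge : |e.f (g : F)| * M ≤ 1 := by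
    rw [hg, map_div₀, map_natCast, abs_div, abs_of_nonneg hwe.1, abs_of_pos hMR, div_mul_cancel₀ _ hMR.ne']
    exact hwe.2
  have hge' : (M : e'.R) ≤ |e'.f (g : F)| := by
    rw [hg, map_div₀, map_natCast, abs_div, abs_of_pos hMR', le_div_iff₀ hMR']
    refine le_trans ?_ hwe'
    have h1 : ((M ^ 2 : ℕ) : e'.R) ≤ (m : e'.R) := Nat.cast_le.mpr (by omega)
    push_cast at h1
    calc (M : e'.R) * M = (M : e'.R) ^ 2 := by ring
      _ ≤ _ := h1
  refine ⟨g, ?_, ?_⟩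
  · -- at `e`
    have hy1 : (1 : e.R) ≤ |e.f (y : F)| * n₁ := by
      have hyp : 0 < |e.f (y : F)| := abs_pos.mpr (f_ne e _)
      rw [f_inv] at hn₁
      rwa [inv_le_iff_one_le_mul₀ hyp, mul_comm] at hn₁
    have hn0 : (0 : e.R) < n₁ := by
      by_contra h0
      have h1 : (n₁ : e.R) = 0 := le_antisymm (not_lt.mp h0) (Nat.cast_nonneg _)
      rw [h1, mul_zero] at hy1
      exact absurd hy1 (not_le.mpr one_pos)
    have h1 : ((N * n₁ : ℕ) : e.R) ≤ (M : e.R) := Nat.cast_le.mpr (by omega)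
    push_cast at h1
    have h2 : (|e.f (g : F)| * N) * n₁ ≤ |e.f (y : F)| * n₁ := by
      refine le_trans ?_ hy1
      refine le_trans ?_ hge
      calc (|e.f (g : F)| * N) * n₁ = |e.f (g : F)| * (N * n₁) := by ring
        _ ≤ _ := mul_le_mul_of_nonneg_left h1 (abs_nonneg _)
    exact le_of_mul_le_mul_right h2 hn0
  · -- at `e'`
    have hyp : 0 < |e'.f (y' : F)| := abs_pos.mpr (f_ne e' _)
    have hy1 : (1 : e'.R) ≤ |e'.f (y' : F)| * n₂ := by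
      rw [f_inv] at hn₂
      rwa [inv_le_iff_one_le_mul₀ hyp, mul_comm] at hn₂
    have hgp : 0 < |e'.f (g : F)| := abs_pos.mpr (f_ne e' _)
    rw [f_inv, inv_mul_le_iff₀ hgp]
    have h1 : ((N * n₂ : ℕ) : e'.R) ≤ (M : e'.R) := Nat.cast_le.mpr (by omega)
    push_cast at h1
    calc (N : e'.R) = N * 1 := (mul_one _).symm
      _ ≤ N * (|e'.f (y' : F)| * n₂) := mul_le_mul_of_nonneg_left hy1 (Nat.cast_nonneg _)
      _ = (N * n₂) * |e'.f (y' : F)| := by ring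
      _ ≤ M * |e'.f (y' : F)| := mul_le_mul_of_nonneg_right h1 hyp.le
      _ ≤ _ := mul_le_mul_of_nonneg_right hge' hyp.le

/-- FO -/
theorem fo : S_FO := by
  intro F _ q q' hP N y y' hy hy'
  rcases q with O | e <;> rcases q' with O' | e'
  · obtain ⟨g, hg0, ⟨b, hb, h1⟩, b', hb', h2⟩ := exists_g hy hy'
    exact ⟨Units.mk0 g hg0, ⟨b, hb, h1⟩, ⟨b', hb', by rw [Units.val_inv_eq_inv_val, Units.val_mk0, h2]⟩⟩
  · obtain ⟨g, h1, h2⟩ := fo2 O e' N y y' hy hy'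
    exact ⟨g, h1, h2⟩
  · obtain ⟨g, h1, h2⟩ := fo2 O' e N y' y (UU_symm hy') (UU_symm hy)
    refine ⟨g⁻¹, h2, ?_⟩
    rw [inv_inv]
    exact h1
  · by_cases h1 : Arch e' ≤ Arch e
    · by_cases h2 : Arch e ≤ Arch e'
      · obtain ⟨g, h3, h4⟩ := fo4c e e' hP N y y' hy hy' (le_antisymm h1 h2)
        exact ⟨g, h3, h4⟩
      · obtain ⟨g, h3, h4⟩ := fo4a e' e N y' y (UU_symm hy') (UU_symm hy) h2
        refine ⟨g⁻¹, h4, ?_⟩
        rw [inv_inv]
        exact h3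
    · obtain ⟨g, h3, h4⟩ := fo4a e e' N y y' hy hy' h1
      exact ⟨g, h3, h4⟩

end Pool.Agent.P8H63.FP
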