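import Pool.Agent.P8H63.FP.Ordi0
import Pool.Agent.P8H47.FP.Stm5

/-! # Project FP: package ORDI -/

set_option autoImplicit false

namespace Pool.Agent.P8H63.FP

open Pool.Agent.P8H47.FP

/-- a nontrivial finite 2-group has a nontrivial character of order two -/
theorem exists_char {Q : Type} [Group Q] [Finite Q] {k : ℕ} (hQ : Nat.card Q = 2 ^ (k + 1)) :
    ∃ f : Q → ℤˣ, (∀ a b, f (a * b) = f a * f b) ∧ ∃ q, f q ≠ 1 := by
  classical
  have : Fact (Nat.Prime 2) := ⟨Nat.prime_two⟩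
  obtain ⟨R, hR⟩ := Sylow.exists_subgroup_card_pow_prime (G := Q) 2 (n := k) (by
    rw [hQ]
    exact pow_dvd_pow 2 (Nat.le_succ k))
  have hidx : R.index = 2 := by
    have h1 := R.card_mul_index
    rw [hR, hQ, pow_succ] at h1
    exact Nat.eq_of_mul_eq_mul_left (by positivity) h1
  refine ⟨fun q => if q ∈ R then 1 else -1, ?_, ?_⟩
  · intro a b
    have h1 := Subgroup.mul_mem_iff_of_index_two hidx (a := a) (b := b)
    by_cases ha : a ∈ R <;> by_cases hb : b ∈ R <;> simp [h1, ha, hb]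
  · by_contra h
    push Not at h
    have h2 : R = ⊤ := by
      rw [eq_top_iff]
      intro q _
      by_contra hq
      have := h q
      rw [if_neg hq] at this
      exact absurd this (by decide)
    rw [h2, Subgroup.index_top] at hidx
    omega

variable {F K : Type} [Field F] [Field K] [Algebra F K]

/-- a nontrivial subgroup has a nontrivial character of order two -/
theorem exists_char' [IsGalois F K]
    (hL : ∀ x : K, ∃ L : IntermediateField F K, x ∈ L ∧ FiniteDimensional F L ∧ IsGalois F L ∧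
      ∃ k : ℕ, Module.finrank F L = 2 ^ k) (H : Subgroup (K ≃ₐ[F] K)) {g : K ≃ₐ[F] K} (hg : g ∈ H)
    (hg1 : g ≠ 1) : ∃ χ : (K ≃ₐ[F] K) → ℤˣ, HomOn H χ ∧ ∃ h ∈ H, χ h ≠ 1 := by
  classical
  obtain ⟨x, hx⟩ : ∃ x, g x ≠ x := by
    by_contra h
    push Not at h
    exact hg1 (AlgEquiv.ext h)
  obtain ⟨N, hxN, hfd, hgal, k, hk⟩ := hL x
  let ρ : (K ≃ₐ[F] K) →* (N ≃ₐ[F] N) := AlgEquiv.restrictNormalHom N
  have hρg : ρ g ≠ 1 := by
    intro h
    apply hx
    have h1 := AlgEquiv.restrictNormal_commutes g N ⟨x, hxN⟩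
    have h2 : g.restrictNormal N ⟨x, hxN⟩ = ⟨x, hxN⟩ := by
      change (ρ g) ⟨x, hxN⟩ = _
      rw [h]
      rfl
    rw [h2] at h1
    exact h1.symm
  let Q : Subgroup (N ≃ₐ[F] N) := H.map ρ
  have hcard : Nat.card (N ≃ₐ[F] N) = 2 ^ k := by
    rw [IsGalois.card_aut_eq_finrank, hk]
  have hfinG : Finite (N ≃ₐ[F] N) := inferInstance
  obtain ⟨j, -, hj⟩ := (Nat.dvd_prime_pow Nat.prime_two).mp (hcard ▸ Subgroup.card_subgroup_dvd_card Q)
  have hj0 : j ≠ 0 := by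
    rintro rfl
    rw [pow_zero] at hj
    have h1 : Q = ⊥ := Subgroup.card_eq_one.mp hj
    apply hρg
    rw [← Subgroup.mem_bot, ← h1]
    exact Subgroup.mem_map_of_mem ρ hg
  obtain ⟨j', rfl⟩ := Nat.exists_eq_succ_of_ne_zero hj0
  obtain ⟨f, hf, q, hq⟩ := exists_char hj
  let χ : (K ≃ₐ[F] K) → ℤˣ := fun h => if hh : ρ h ∈ Q then f ⟨ρ h, hh⟩ else 1
  have hχ : ∀ h (hh : ρ h ∈ Q), χ h = f ⟨ρ h, hh⟩ := fun h hh => dif_pos hh
  have hmem : ∀ h ∈ H, ρ h ∈ Q := fun h hh => Subgroup.mem_map_of_mem ρ hh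
  have hf1 : f 1 = 1 := by
    have h1 := hf 1 1
    rw [one_mul] at h1
    exact left_eq_mul.mp h1
  refine ⟨χ, ⟨?_, N.fixingSubgroup, IntermediateField.fixingSubgroup_isOpen N, ?_⟩, ?_⟩
  · intro a ha b hb
    rw [hχ a (hmem a ha), hχ b (hmem b hb), hχ (a * b) (hmem _ (H.mul_mem ha hb)), ← hf]
    congr 1
    apply Subtype.ext
    exact map_mul ρ a b
  · intro v hv hvH
    rw [hχ v (hmem v hvH)]
    have h1 : ρ v = 1 := by
      ext y
      have h2 := AlgEquiv.restrictNormal_commutes v N y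
      change ((v.restrictNormal N y : N) : K) = _
      rw [IntermediateField.mem_fixingSubgroup_iff] at hv
      exact h2.trans (hv y y.2)
    have h3 : (⟨ρ v, hmem v hvH⟩ : Q) = 1 := Subtype.ext h1
    rw [h3, hf1]
  · obtain ⟨h, hh, hhq⟩ := Subgroup.mem_map.mp q.2
    refine ⟨h, hh, ?_⟩
    rw [hχ h (hmem h hh)]
    have : (⟨ρ h, hmem h hh⟩ : Q) = q := Subtype.ext hhq
    rw [this]
    exact hq

/-- a positive element in a euclidean field -/
theorem sq_ab (h2 : (2 : K) ≠ 0) {L : IntermediateField F K} {P : Subgroup Fˣ} (h1 : (-1 : K) ∉ Tc P L)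
    (hT : ∀ a ∈ Tc P L, ∃ b ∈ L, b ^ 2 = a) (hE : ∀ a ∈ L, (∃ b ∈ L, a = b ^ 2) ∨ ∃ b ∈ L, a = -b ^ 2) {i : K}
    (hi : i ^ 2 = -1) {a b : K} (ha : a ∈ L) (hb : b ∈ L) : ∃ c ∈ L, ∃ d ∈ L, (c + d * i) ^ 2 = a + b * i := by
  have h2L : (2 : K) ∈ L := ofNat_mem L 2
  have hn1 : ∀ c ∈ L, c ^ 2 ≠ -1 := fun c hc h => h1 (by rw [← h]; exact sq_mem_T hc)
  by_cases hb0 : b = 0
  · rcases hE a ha with ⟨c, hc, rfl⟩ | ⟨c, hc, rfl⟩
    · exact ⟨c, hc, 0, L.zero_mem, by rw [hb0]; ring⟩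
    · refine ⟨0, L.zero_mem, c, hc, ?_⟩
      rw [hb0]
      linear_combination c ^ 2 * hi
  · obtain ⟨w, hw, hw2⟩ := hT (a ^ 2 + b ^ 2) ((Tc P L).add_mem (sq_mem_T ha) (sq_mem_T hb))
    have key : ∀ w' ∈ L, w' ^ 2 = a ^ 2 + b ^ 2 → ∀ c ∈ L, (a + w') / 2 = c ^ 2 →
        ∃ c ∈ L, ∃ d ∈ L, (c + d * i) ^ 2 = a + b * i := by
      intro w' hw' hw'2 c hc hc2
      have hc0 : c ≠ 0 := by
        intro h0
        apply hb0
        have h3 : a + w' = 0 := by
          have : (a + w') / 2 = 0 := by rw [hc2, h0]; ring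
          rcases div_eq_zero_iff.mp this with h | h
          · exact h
          · exact absurd h h2
        have h4 : b ^ 2 = 0 := by linear_combination (w' - a) * h3 - hw'2
        exact pow_eq_zero_iff (two_ne_zero) |>.mp h4
      have h3 : a + w' = 2 * c ^ 2 := by
        rw [← hc2]
        field_simp
      refine ⟨c, hc, b / (2 * c), L.div_mem hb (L.mul_mem h2L hc), ?_⟩
      have h4 : (c + b / (2 * c) * i) ^ 2 = c ^ 2 + (b / (2 * c)) ^ 2 * i ^ 2 + b * i := by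
        field_simp
        ring
      rw [h4, hi]
      have h5 : (b / (2 * c)) ^ 2 = c ^ 2 - a := by
        have h6 : b ^ 2 = (2 * c) ^ 2 * (c ^ 2 - a) := by
          linear_combination -hw'2 + (2 * c ^ 2 + w' - a) * h3
        rw [div_pow, h6]
        field_simp
      rw [h5]
      ring
    rcases hE ((a + w) / 2) (L.div_mem (L.add_mem ha hw) h2L) with ⟨c, hc, hc2⟩ | ⟨c, hc, hc2⟩
    · exact key w hw hw2 c hc hc2
    · rcases hE ((a - w) / 2) (L.div_mem (L.sub_mem ha hw) h2L) with ⟨d, hd, hd2⟩ | ⟨d, hd, hd2⟩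
      · exact key (-w) (L.neg_mem hw) (by rw [neg_sq, hw2]) d hd (by rw [← hd2]; ring)
      · exfalso
        apply hn1 (2 * c * d / b) (L.div_mem (L.mul_mem (L.mul_mem h2L hc) hd) hb)
        have h3 : a + w = -2 * c ^ 2 := by
          have : a + w = 2 * ((a + w) / 2) := by field_simp
          rw [this, hc2]
          ring
        have h4 : a - w = -2 * d ^ 2 := by
          have : a - w = 2 * ((a - w) / 2) := by field_simp
          rw [this, hd2]
          ring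
        have h5 : (2 * c * d) ^ 2 = -b ^ 2 := by
          have h6 : (a + w) * (a - w) = (-2 * c ^ 2) * (-2 * d ^ 2) := by rw [h3, h4]
          linear_combination -h6 - hw2
        rw [div_pow, h5]
        field_simp

/-- the involution of an ordering -/
theorem exists_inv [IsGalois F K] (h2 : (2 : K) ≠ 0)
    (hL : ∀ x : K, ∃ L : IntermediateField F K, x ∈ L ∧ FiniteDimensional F L ∧ IsGalois F L ∧
      ∃ k : ℕ, Module.finrank F L = 2 ^ k) (hsq : ∀ c : K, ∃ y, y ^ 2 = c) {P : Subgroup Fˣ}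
    (hadd : ∀ x ∈ P, ∀ y ∈ P, ∃ z ∈ P, (z : F) = x + y) (hneg : -1 ∉ P) (htot : ∀ x : Fˣ, x ∈ P ∨ -x ∈ P) :
    ∃ τ : K ≃ₐ[F] K, τ * τ = 1 ∧ τ ≠ 1 ∧
      ∀ x ∈ P, ∃ y ∈ Fx (Subgroup.zpowers τ), y ^ 2 = algebraMap F K (x : F) := by
  obtain ⟨L, h1, hmax⟩ := exists_max (K := K) hadd hneg htot
  obtain ⟨hT, hE⟩ := max_prop hsq h1 hmax
  obtain ⟨i, hi⟩ := hsq (-1)
  have hi0 : i ≠ 0 := by
    rintro rfl
    rw [zero_pow two_ne_zero] at hi
    exact (neg_ne_zero.mpr one_ne_zero) hi.symm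
  have hiL : i ∉ L := fun h => h1 (by rw [← hi]; exact sq_mem_T h)
  let H : Subgroup (K ≃ₐ[F] K) := L.fixingSubgroup
  have hHL : ∀ x : K, x ∈ Fx H ↔ x ∈ L := by
    intro x
    rw [mem_Fx]
    have h3 := InfiniteGalois.fixedField_fixingSubgroup L
    rw [← h3, IntermediateField.mem_fixedField_iff]
  have hHc : IsClosed (H : Set (K ≃ₐ[F] K)) := InfiniteGalois.fixingSubgroup_isClosed L
  have hex : ∃ τ ∈ H, τ i ≠ i := by
    by_contra h
    push Not at h
    exact hiL ((hHL i).mp ((mem_Fx H i).mpr h))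
  obtain ⟨τ, hτ, hτi⟩ := hex
  have hτi' : τ i = -i := by
    have h3 : (τ i) ^ 2 = i ^ 2 := by
      rw [← map_pow, hi, map_neg, map_one]
    exact (sq_eq_sq_iff_eq_or_eq_neg.mp h3).resolve_left hτi
  have hi2 : i ^ 2 ∈ Fx H := by
    rw [hHL, hi]
    exact L.neg_mem L.one_mem
  have hbot : ∀ g ∈ H ⊓ MulAction.stabilizer (K ≃ₐ[F] K) i, g = 1 := by
    intro g hg
    by_contra hg1
    obtain ⟨χ, hχ, h, hh, hχh⟩ := exists_char' hL _ hg hg1
    obtain ⟨s, hs0, hs⟩ := kum F K _ (inf_closed hHc i) χ hχ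
    have hs2 : ∀ g ∈ H ⊓ MulAction.stabilizer (K ≃ₐ[F] K) i, g (s ^ 2) = s ^ 2 := by
      intro g hg
      rw [map_pow, hs g hg, mul_pow]
      rcases Int.units_eq_one_or (χ g) with h1 | h1 <;> simp [h1]
    obtain ⟨a, ha, b, hb, hab, -⟩ := split h2 hτ hi0 hτi' hi2 hs2
    rw [hHL] at ha hb
    obtain ⟨c, hc, d, hd, hcd⟩ := sq_ab h2 h1 hT hE hi ha hb
    rw [← hHL, mem_Fx] at hc hd
    have hfix : h (c + d * i) = c + d * i := by
      obtain ⟨hh1, hh2⟩ := mem_st'.mp hh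
      rw [map_add, map_mul, hc h hh1, hd h hh1, hh2]
    have hfs : h s = s := by
      rw [← hcd] at hab
      rcases sq_eq_sq_iff_eq_or_eq_neg.mp hab with h5 | h5
      · rw [h5, hfix]
      · rw [h5, map_neg, hfix]
    apply hχh
    apply sg_inj h2
    apply mul_right_cancel₀ hs0
    rw [← hs h hh, hfs]
    simp
  refine ⟨τ, hbot _ (sq_mem hτ hτi'), ?_, ?_⟩
  · intro h
    apply hτi
    rw [h]
    rfl
  · intro x hx
    obtain ⟨y, hy, hy2⟩ := hT (algebraMap F K (x : F)) (by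
      have h3 := gen_mem (K := K) (L := L) hx L.one_mem
      rwa [one_pow, mul_one] at h3)
    refine ⟨y, ?_, hy2⟩
    rw [← hHL, mem_Fx] at hy
    rw [mem_Fx]
    intro h hh
    exact hy h ((Subgroup.zpowers_le.mpr hτ) hh)

/-- ORDI -/
theorem ordi : S_ORDI := by
  intro hZ F _ h2 K hGal hL hsq P hP
  have h2K : (2 : K) ≠ 0 := by
    intro h
    apply h2
    apply (algebraMap F K).injective
    rw [map_zero, map_ofNat]
    exact h
  obtain ⟨τ, hτ2, hτ1, hτP⟩ := exists_inv (F := F) (K := K) h2K hL hsq hP.add hP.neg hP.tot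
  obtain ⟨P', hP', hO⟩ := hZ F K h2K hsq τ hτ2 hτ1
  have hle : P ≤ P' := fun x hx => (hO.pos x).mpr (hτP x hx)
  have heq : P = P' := by
    refine le_antisymm hle (fun x hx => ?_)
    rcases hP.tot x with h | h
    · exact h
    · exfalso
      apply hP'.neg
      have h3 := P'.mul_mem (hle h) (P'.inv_mem hx)
      have e : -x * x⁻¹ = -1 := by
        rw [neg_mul, mul_inv_cancel]
      rwa [e] at h3
  exact ⟨τ, heq ▸ hO⟩

end Pool.Agent.P8H63.FP
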