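import Pool.Agent.P8H63.FP.Locn

/-! # Project FP: package ORDI, the general part -/

set_option autoImplicit false

namespace Pool.Agent.P8H63.FP

open Pool.Agent.P8H47.FP

section cone

variable {F K : Type} [Field F] [Field K] [Algebra F K]

/-- the generators -/
def gen (P : Subgroup Fˣ) (L : IntermediateField F K) : Set K :=
  {x | ∃ p ∈ P, ∃ y ∈ L, x = algebraMap F K (p : F) * y ^ 2}

/-- the sums of the elements `p y²` -/
def Tc (P : Subgroup Fˣ) (L : IntermediateField F K) : AddSubmonoid K := AddSubmonoid.closure (gen P L)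

variable {P : Subgroup Fˣ} {L : IntermediateField F K}

theorem gen_mem {p : Fˣ} (hp : p ∈ P) {y : K} (hy : y ∈ L) : algebraMap F K (p : F) * y ^ 2 ∈ Tc P L :=
  AddSubmonoid.subset_closure ⟨p, hp, y, hy, rfl⟩

theorem sq_mem_T {y : K} (hy : y ∈ L) : y ^ 2 ∈ Tc P L := by
  have h := gen_mem (P := P) (one_mem P) hy
  rwa [Units.val_one, map_one, one_mul] at h

theorem T_mul {x y : K} (hx : x ∈ Tc P L) (hy : y ∈ Tc P L) : x * y ∈ Tc P L := by
  induction hx using AddSubmonoid.closure_induction with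
  | mem a ha =>
    obtain ⟨p, hp, u, hu, rfl⟩ := ha
    induction hy using AddSubmonoid.closure_induction with
    | mem b hb =>
      obtain ⟨q, hq, v, hv, rfl⟩ := hb
      have h := gen_mem (P := P) (L := L) (P.mul_mem hp hq) (L.mul_mem hu hv)
      have e : algebraMap F K (p : F) * u ^ 2 * (algebraMap F K (q : F) * v ^ 2) =
          algebraMap F K ((p * q : Fˣ) : F) * (u * v) ^ 2 := by
        rw [Units.val_mul, map_mul]
        ring
      rw [e]
      exact h
    | zero =>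
      rw [mul_zero]
      exact (Tc P L).zero_mem
    | add a b _ _ h1 h2 =>
      rw [mul_add]
      exact (Tc P L).add_mem h1 h2
  | zero =>
    rw [zero_mul]
    exact (Tc P L).zero_mem
  | add a b _ _ h1 h2 =>
    rw [add_mul]
    exact (Tc P L).add_mem h1 h2

theorem T_le {x : K} (hx : x ∈ Tc P L) : x ∈ L := by
  induction hx using AddSubmonoid.closure_induction with
  | mem a ha =>
    obtain ⟨p, hp, u, hu, rfl⟩ := ha
    exact L.mul_mem (L.algebraMap_mem _) (pow_mem hu 2)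
  | zero => exact L.zero_mem
  | add a b _ _ h1 h2 => exact L.add_mem h1 h2

theorem T_mono {L' : IntermediateField F K} (h : L ≤ L') {x : K} (hx : x ∈ Tc P L) : x ∈ Tc P L' := by
  refine AddSubmonoid.closure_mono ?_ hx
  rintro a ⟨p, hp, u, hu, rfl⟩
  exact ⟨p, hp, u, h hu, rfl⟩

/-- the field `L(b)` -/
def ext (L : IntermediateField F K) (b : K) (hb : b ^ 2 ∈ L) (hbL : b ∉ L) : IntermediateField F K where
  carrier := {x | ∃ u ∈ L, ∃ v ∈ L, x = u + v * b}
  mul_mem' := by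
    rintro x y ⟨u, hu, v, hv, rfl⟩ ⟨u', hu', v', hv', rfl⟩
    refine ⟨u * u' + v * v' * b ^ 2, L.add_mem (L.mul_mem hu hu') (L.mul_mem (L.mul_mem hv hv') hb),
      u * v' + v * u', L.add_mem (L.mul_mem hu hv') (L.mul_mem hv hu'), ?_⟩
    ring
  one_mem' := ⟨1, L.one_mem, 0, L.zero_mem, by ring⟩
  add_mem' := by
    rintro x y ⟨u, hu, v, hv, rfl⟩ ⟨u', hu', v', hv', rfl⟩
    exact ⟨u + u', L.add_mem hu hu', v + v', L.add_mem hv hv', by ring⟩
  zero_mem' := ⟨0, L.zero_mem, 0, L.zero_mem, by ring⟩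
  algebraMap_mem' := fun r => ⟨algebraMap F K r, L.algebraMap_mem r, 0, L.zero_mem, by ring⟩
  inv_mem' := by
    rintro x ⟨u, hu, v, hv, rfl⟩
    by_cases h : u ^ 2 - b ^ 2 * v ^ 2 = 0
    · have hv0 : v = 0 := by
        by_contra hv0
        apply hbL
        have h1 : b ^ 2 = (u / v) ^ 2 := by
          field_simp
          linear_combination -h
        rcases sq_eq_sq_iff_eq_or_eq_neg.mp h1 with h2 | h2
        · rw [h2]
          exact L.div_mem hu hv
        · rw [h2]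
          exact L.neg_mem (L.div_mem hu hv)
      refine ⟨u⁻¹, L.inv_mem hu, 0, L.zero_mem, ?_⟩
      rw [hv0]
      simp
    · have hmem : u ^ 2 - b ^ 2 * v ^ 2 ∈ L := L.sub_mem (pow_mem hu 2) (L.mul_mem hb (pow_mem hv 2))
      refine ⟨u / (u ^ 2 - b ^ 2 * v ^ 2), L.div_mem hu hmem, -v / (u ^ 2 - b ^ 2 * v ^ 2),
        L.div_mem (L.neg_mem hv) hmem, ?_⟩
      have h1 : u + v * b ≠ 0 := by
        intro h2
        apply h
        have : u ^ 2 - b ^ 2 * v ^ 2 = (u + v * b) * (u - v * b) := by ring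
        rw [this, h2, zero_mul]
      apply mul_left_cancel₀ h1
      rw [mul_inv_cancel₀ h1]
      have e : (u + v * b) * (u / (u ^ 2 - b ^ 2 * v ^ 2) + -v / (u ^ 2 - b ^ 2 * v ^ 2) * b) =
          (u ^ 2 - b ^ 2 * v ^ 2) / (u ^ 2 - b ^ 2 * v ^ 2) := by ring
      rw [e, div_self h]

theorem mem_ext {b : K} {hb : b ^ 2 ∈ L} {hbL : b ∉ L} {x : K} :
    x ∈ ext L b hb hbL ↔ ∃ u ∈ L, ∃ v ∈ L, x = u + v * b := Iff.rfl

theorem T_ext {b : K} {hb : b ^ 2 ∈ L} {hbL : b ∉ L} {x : K} (hx : x ∈ Tc P (ext L b hb hbL)) :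
    ∃ A ∈ Tc P L, ∃ B ∈ Tc P L, ∃ C ∈ L, x = A + b ^ 2 * B + C * b := by
  induction hx using AddSubmonoid.closure_induction with
  | mem a ha =>
    obtain ⟨p, hp, y, hy, rfl⟩ := ha
    obtain ⟨u, hu, v, hv, rfl⟩ := mem_ext.mp hy
    refine ⟨_, gen_mem hp hu, _, gen_mem hp hv, 2 * algebraMap F K (p : F) * u * v, ?_, ?_⟩
    · have h2 : (2 : K) ∈ L := ofNat_mem L 2
      exact L.mul_mem (L.mul_mem (L.mul_mem h2 (L.algebraMap_mem _)) hu) hv
    · ring
  | zero => exact ⟨0, (Tc P L).zero_mem, 0, (Tc P L).zero_mem, 0, L.zero_mem, by ring⟩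
  | add a b _ _ h1 h2 =>
    obtain ⟨A, hA, B, hB, C, hC, rfl⟩ := h1
    obtain ⟨A', hA', B', hB', C', hC', rfl⟩ := h2
    exact ⟨A + A', (Tc P L).add_mem hA hA', B + B', (Tc P L).add_mem hB hB', C + C', L.add_mem hC hC', by ring⟩

theorem T_bot (hadd : ∀ x ∈ P, ∀ y ∈ P, ∃ z ∈ P, (z : F) = x + y) (htot : ∀ x : Fˣ, x ∈ P ∨ -x ∈ P) {x : K}
    (hx : x ∈ Tc P (⊥ : IntermediateField F K)) : x = 0 ∨ ∃ p ∈ P, x = algebraMap F K (p : F) := by
  induction hx using AddSubmonoid.closure_induction with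
  | mem a ha =>
    obtain ⟨p, hp, y, hy, rfl⟩ := ha
    rw [IntermediateField.mem_bot] at hy
    obtain ⟨z, rfl⟩ := hy
    by_cases hz : z = 0
    · left
      rw [hz]
      simp
    · right
      refine ⟨p * (Units.mk0 z hz) ^ 2, P.mul_mem hp ?_, ?_⟩
      · rcases htot (Units.mk0 z hz) with h | h
        · exact P.pow_mem h 2
        · have h1 := P.pow_mem h 2
          rwa [neg_sq] at h1
      · rw [Units.val_mul, Units.val_pow_eq_pow_val, Units.val_mk0, map_mul, map_pow]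
  | zero => exact Or.inl rfl
  | add a b _ _ h1 h2 =>
    rcases h1 with rfl | ⟨p, hp, rfl⟩
    · rw [zero_add]
      exact h2
    · rcases h2 with rfl | ⟨q, hq, rfl⟩
      · rw [add_zero]
        exact Or.inr ⟨p, hp, rfl⟩
      · obtain ⟨z, hz, hz'⟩ := hadd p hp q hq
        exact Or.inr ⟨z, hz, by rw [hz', map_add]⟩

/-- there is a maximal field without `-1` in the cone -/
theorem exists_max (hadd : ∀ x ∈ P, ∀ y ∈ P, ∃ z ∈ P, (z : F) = x + y) (hneg : -1 ∉ P)
    (htot : ∀ x : Fˣ, x ∈ P ∨ -x ∈ P) :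
    ∃ L : IntermediateField F K, (-1 : K) ∉ Tc P L ∧ ∀ L' : IntermediateField F K, L ≤ L' → L' ≠ L →
      (-1 : K) ∈ Tc P L' := by
  obtain ⟨m, -, hm⟩ := zorn_le_nonempty₀ {L : IntermediateField F K | (-1 : K) ∉ Tc P L} (by
    intro c hc hchain y hy
    refine ⟨sSup c, ?_, fun z hz => le_sSup hz⟩
    intro h
    have key : ∀ x ∈ Tc P (sSup c), ∃ L ∈ c, x ∈ Tc P L := by
      intro x hx
      induction hx using AddSubmonoid.closure_induction with
      | mem a ha =>
        obtain ⟨p, hp, u, hu, rfl⟩ := ha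
        have h1 : ∃ L ∈ c, u ∈ L := by
          have hne : Nonempty c := ⟨⟨y, hy⟩⟩
          rw [sSup_eq_iSup'] at hu
          have h2 : u ∈ ((⨆ L : c, (L : IntermediateField F K) : IntermediateField F K) : Set K) := hu
          rw [IntermediateField.coe_iSup_of_directed hchain.directedOn.directed_val] at h2
          rw [Set.mem_iUnion] at h2
          obtain ⟨L, hL⟩ := h2
          exact ⟨L, L.2, hL⟩
        obtain ⟨L, hL, huL⟩ := h1
        exact ⟨L, hL, gen_mem hp huL⟩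
      | zero => exact ⟨y, hy, (Tc P y).zero_mem⟩
      | add a b _ _ h1 h2 =>
        obtain ⟨L, hL, h1⟩ := h1
        obtain ⟨L', hL', h2⟩ := h2
        rcases hchain.total hL hL' with h3 | h3
        · exact ⟨L', hL', (Tc P L').add_mem (T_mono h3 h1) h2⟩
        · exact ⟨L, hL, (Tc P L).add_mem h1 (T_mono h3 h2)⟩
    obtain ⟨L, hL, h1⟩ := key _ h
    exact hc hL h1) ⊥ (by
    intro h
    rcases T_bot hadd htot h with h1 | ⟨p, hp, h1⟩
    · exact (neg_ne_zero.mpr one_ne_zero) h1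
    · apply hneg
      have h2 : p = -1 := by
        apply Units.ext
        apply (algebraMap F K).injective
        rw [← h1]
        simp
      rw [← h2]
      exact hp)
  refine ⟨m, hm.prop, fun L' hL' hne => ?_⟩
  by_contra h
  exact hne (le_antisymm (hm.le_of_ge h hL') hL')

/-- the properties of the maximal field -/
theorem max_prop (hsq : ∀ c : K, ∃ y, y ^ 2 = c) (h1 : (-1 : K) ∉ Tc P L)
    (h2 : ∀ L' : IntermediateField F K, L ≤ L' → L' ≠ L → (-1 : K) ∈ Tc P L') :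
    (∀ a ∈ Tc P L, ∃ b ∈ L, b ^ 2 = a) ∧ ∀ a ∈ L, (∃ b ∈ L, a = b ^ 2) ∨ ∃ b ∈ L, a = -b ^ 2 := by
  have key : ∀ b : K, b ∉ L → b ^ 2 ∈ L → ∃ A ∈ Tc P L, ∃ B ∈ Tc P L, -1 = A + b ^ 2 * B := by
    intro b hb hb2
    have h3 : L ≤ ext L b hb2 hb := fun x hx => mem_ext.mpr ⟨x, hx, 0, L.zero_mem, by ring⟩
    have h4 : ext L b hb2 hb ≠ L := by
      intro h
      apply hb
      rw [← h]
      exact mem_ext.mpr ⟨0, L.zero_mem, 1, L.one_mem, by ring⟩
    obtain ⟨A, hA, B, hB, C, hC, h5⟩ := T_ext (h2 _ h3 h4)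
    have hC0 : C = 0 := by
      by_contra hC0
      apply hb
      have h6 : b = (-1 - A - b ^ 2 * B) / C := by
        field_simp
        linear_combination -h5
      rw [h6]
      exact L.div_mem (L.sub_mem (L.sub_mem (L.neg_mem L.one_mem) (T_le hA)) (L.mul_mem hb2 (T_le hB))) hC
    refine ⟨A, hA, B, hB, ?_⟩
    rw [h5, hC0]
    ring
  have hT : ∀ a ∈ Tc P L, ∃ b ∈ L, b ^ 2 = a := by
    intro a ha
    obtain ⟨b, hb⟩ := hsq a
    refine ⟨b, ?_, hb⟩
    by_contra hbL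
    obtain ⟨A, hA, B, hB, h5⟩ := key b hbL (by rw [hb]; exact T_le ha)
    apply h1
    rw [h5, hb]
    exact (Tc P L).add_mem hA (T_mul ha hB)
  refine ⟨hT, fun a ha => ?_⟩
  obtain ⟨b, hb⟩ := hsq a
  by_cases hbL : b ∈ L
  · exact Or.inl ⟨b, hbL, hb.symm⟩
  · right
    obtain ⟨A, hA, B, hB, h5⟩ := key b hbL (by rw [hb]; exact ha)
    rw [hb] at h5
    have hB0 : B ≠ 0 := by
      intro h
      apply h1
      rw [h5, h, mul_zero, add_zero]
      exact hA
    have h6 : -a ∈ Tc P L := by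
      have h7 : -a = (1 ^ 2 + A) * (B * (B⁻¹) ^ 2) := by
        field_simp
        linear_combination h5
      rw [h7]
      exact T_mul ((Tc P L).add_mem (sq_mem_T L.one_mem) hA) (T_mul hB (sq_mem_T (L.inv_mem (T_le hB))))
    obtain ⟨c, hc, hc2⟩ := hT _ h6
    exact ⟨c, hc, by rw [hc2]; ring⟩

end cone

end Pool.Agent.P8H63.FP
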